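import Pool.Agent.P.MP_dc0ef5_nt.Gaps

open Module Pool.Agent.P.MP_dc0ef5_nt.Gaps

namespace Pool.Agent.Results.MP_dc0ef5_nt.BoseGap

theorem result (K L : Type) [Field K] [Fintype K] [Field L] [Algebra K L] (h : finrank K L = 2)
    (θ : Lˣ) (hθ : ∀ x : Lˣ, x ∈ Subgroup.zpowers θ) (d : ℕ)
    (hd : d.Coprime (Fintype.card K ^ 2 - 1)) (s : ZMod (Fintype.card K ^ 2 - 1)) :
    2 * Fintype.card K - 2 ≤ gap ((fun a => (d : ZMod _) * a + s) '' bose K (θ : L)) :=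
  bose_gap h θ hθ d hd s

end Pool.Agent.Results.MP_dc0ef5_nt.BoseGap
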